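import Pool.Agent.R129.Four.Base

/-!
# Four-flows and tree decompositions whose bags are not sparse

The class of the graphs which have a tree decomposition such that any six vertices of a bag contain
a circuit with at most four edges is closed under contractions.
-/

set_option autoImplicit false
set_option linter.unusedSectionVars false

namespace Pool.Agent.R129.Four

open Finset Pool.Agent.TH499.TF

variable {V E : Type} [Fintype V] [DecidableEq V] [Fintype E] [DecidableEq E]

/-- `S` contains the vertices of a circuit with two, three or four edges -/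
def Sh (src dst : E → V) (S : Finset V) : Prop :=
  ∃ k, k ≤ 2 ∧ ∃ (v : Fin (k + 2) → V) (ed : Fin (k + 2) → E), Function.Injective v ∧
    Function.Injective ed ∧ ∀ i, v i ∈ S ∧ Joins src dst (ed i) (v i) (v (i + 1))

/-- every subset of `B` without short circuits has at most five elements -/
def Sp (src dst : E → V) (B : Finset V) : Prop :=
  ∀ S ⊆ B, ¬ Sh src dst S → S.card ≤ 5

/-- a rooted tree decomposition whose bags satisfy `Sp` -/
def HasT (src dst : E → V) : Prop :=
  ∃ (n : ℕ) (par : ℕ → ℕ) (B : ℕ → Finset V), (∀ i, 0 < i → i < n → par i < i) ∧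
    (∀ e, ∃ i, i < n ∧ src e ∈ B i ∧ dst e ∈ B i) ∧
    (∀ i j v, j < i → i < n → v ∈ B i → v ∈ B j → v ∈ B (par i)) ∧
    ∀ i, i < n → Sp src dst (B i)

theorem joins_phi {src dst : E → V} {u v x y : V} {e : E} (h : Joins src dst e x y) :
    Joins (phi u v ∘ src) (phi u v ∘ dst) e (phi u v x) (phi u v y) := by
  rcases h with ⟨h1, h2⟩ | ⟨h1, h2⟩
  · exact Or.inl ⟨congrArg _ h1, congrArg _ h2⟩
  · exact Or.inr ⟨congrArg _ h1, congrArg _ h2⟩

theorem Sp.phi {src dst : E → V} {B : Finset V} (h : Sp src dst B) (u v : V) :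
    Sp (phi u v ∘ src) (phi u v ∘ dst) (B.image (phi u v)) := by
  intro S hS hG
  have hex : ∀ x, ∃ y, x ∈ S → y ∈ B ∧ Pool.Agent.TH499.TF.phi u v y = x := by
    intro x
    by_cases hx : x ∈ S
    · obtain ⟨y, hy, hyx⟩ := mem_image.1 (hS hx)
      exact ⟨y, fun _ => ⟨hy, hyx⟩⟩
    · exact ⟨x, fun h => absurd h hx⟩
  choose σ hσ using hex
  have hinj : Set.InjOn σ S := by
    intro a ha b hb hab
    rw [← (hσ a ha).2, ← (hσ b hb).2, hab]
  have h1 := h (S.image σ) (by
    intro y hy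
    obtain ⟨x, hx, rfl⟩ := mem_image.1 hy
    exact (hσ x hx).1) (by
    rintro ⟨k, hk, w, ed, hw, hed, hA⟩
    have hmem : ∀ i, ∃ x ∈ S, σ x = w i := fun i => mem_image.1 (hA i).1
    choose x hx hxw using hmem
    refine hG ⟨k, hk, x, ed, ?_, hed, fun i => ⟨hx i, ?_⟩⟩
    · intro i j hij
      apply hw
      rw [← hxw i, ← hxw j, hij]
    · have h2 : x i = Pool.Agent.TH499.TF.phi u v (w i) := by
        rw [← hxw i, (hσ _ (hx i)).2]
      have h3 : x (i + 1) = Pool.Agent.TH499.TF.phi u v (w (i + 1)) := by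
        rw [← hxw (i + 1), (hσ _ (hx (i + 1))).2]
      rw [h2, h3]
      exact joins_phi (hA i).2)
  rwa [card_image_of_injOn hinj] at h1

theorem conT : ConC (V := V) (E := E) HasT := by
  intro src dst u v e h hne hj
  obtain ⟨n, par, B, h0, h1, h2, h4⟩ := h
  refine ⟨n, par, fun i => (B i).image (phi u v), h0, ?_, ?_, fun i hi => (h4 i hi).phi _ _⟩
  · intro d
    obtain ⟨i, hin, hi1, hi2⟩ := h1 d
    exact ⟨i, hin, mem_image_of_mem _ hi1, mem_image_of_mem _ hi2⟩
  · have hm : ∀ i x, x ∈ (B i).image (phi u v) ↔ (x ∈ B i ∧ x ≠ v) ∨ (x = u ∧ v ∈ B i) := by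
      intro i x
      rw [mem_image]
      unfold Pool.Agent.TH499.TF.phi
      constructor
      · rintro ⟨y, hy, hyv⟩
        by_cases h : y = v
        · rw [if_pos h] at hyv
          exact Or.inr ⟨hyv.symm, h ▸ hy⟩
        · rw [if_neg h] at hyv
          exact Or.inl ⟨hyv ▸ hy, hyv ▸ h⟩
      · rintro (⟨h5, h6⟩ | ⟨h5, h6⟩)
        · exact ⟨x, h5, if_neg h6⟩
        · exact ⟨v, h6, by rw [if_pos rfl, h5]⟩
    intro i j x hji hi hvi hvj
    change x ∈ (B i).image (phi u v) at hvi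
    change x ∈ (B j).image (phi u v) at hvj
    change x ∈ (B (par i)).image (phi u v)
    rw [hm] at hvi hvj ⊢
    obtain ⟨b, hbn, hb1, hb2⟩ : ∃ b, b < n ∧ u ∈ B b ∧ v ∈ B b := by
      obtain ⟨b, hbn, hb1, hb2⟩ := h1 e
      rcases hj with ⟨h5, h6⟩ | ⟨h5, h6⟩
      · exact ⟨b, hbn, h5 ▸ hb1, h6 ▸ hb2⟩
      · exact ⟨b, hbn, h6 ▸ hb2, h5 ▸ hb1⟩
    rcases hvi with ⟨h5, h6⟩ | ⟨h5, h6⟩ <;> rcases hvj with ⟨h7, h8⟩ | ⟨h7, h8⟩
    · exact Or.inl ⟨h2 i j x hji hi h5 h7, h6⟩
    · rw [h7] at h5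
      rcases two_conn h0 h2 ⟨b, hbn, hb1, hb2⟩ hji hi h5 h8 with h | h
      · rw [h7]; exact Or.inl ⟨h, hne⟩
      · exact Or.inr ⟨h7, h⟩
    · rw [h5] at h7
      rcases two_conn h0 h2 ⟨b, hbn, hb2, hb1⟩ hji hi h6 h7 with h | h
      · exact Or.inr ⟨h5, h⟩
      · rw [h5]; exact Or.inl ⟨h, hne⟩
    · exact Or.inr ⟨h5, h2 i j _ hji hi h6 h8⟩

/-- no short circuits in a minimal counterexample -/
theorem MCo.no_short {C : (E → V) → (E → V) → Prop} {src dst : E → V} (hC : ConC C)
    (h : MCo C src dst) (k : ℕ) (hk : k ≤ 2) (v : Fin (k + 2) → V) (ed : Fin (k + 2) → E)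
    (hv : Function.Injective v) (hed : Function.Injective ed)
    (hj : ∀ i, Joins src dst (ed i) (v i) (v (i + 1))) : False := by
  interval_cases k
  · have h1 := h.par hC (e := ed 0) (e' := ed 1) (x := v 0) (y := v 1)
      (fun h => absurd (hv h) (by decide)) (hj 0) (hj 1).symm
    exact absurd (hed h1) (by decide)
  · exact h.tri hC (x := v 0) (y := v 1) (z := v 2) (fun h => absurd (hv h) (by decide))
      (fun h => absurd (hv h) (by decide)) (fun h => absurd (hv h) (by decide)) (hj 0) (hj 1) (hj 2)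
  · exact h.sq hC (u1 := v 0) (u2 := v 1) (u3 := v 2) (u4 := v 3)
      (fun h => absurd (hv h) (by decide)) (fun h => absurd (hv h) (by decide))
      (fun h => absurd (hv h) (by decide)) (fun h => absurd (hv h) (by decide))
      (fun h => absurd (hv h) (by decide)) (fun h => absurd (hv h) (by decide))
      (hj 0) (hj 1) (hj 2) (hj 3)

/-- **Main step.** -/
theorem nz_of_HasT {src dst : E → V} (hT : HasT src dst) (hP : ¬ PM src dst)
    (hb : ∀ Y, (dlt src dst Y).card ≠ 1) : NZ src dst := by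
  by_contra hnz
  have hC : ConC (V := V) (E := E) (fun s d => HasT s d ∧ ¬ PM s d) := by
    intro s d u v e h hne hj
    exact ⟨conT s d u v e h.1 hne hj, fun hPM => h.2 (hPM.of_phi hne hj)⟩
  obtain ⟨s, d, hM⟩ := exists_MCo (C := fun s d => HasT s d ∧ ¬ PM s d) _ src dst rfl ⟨hT, hP⟩ hb hnz
  have hTD : HasTD 5 s d := by
    obtain ⟨n, par, B, h0, h1, h2, h4⟩ := hM.cls.1
    exact ⟨n, par, B, h0, h1, h2, fun i hi => h4 i hi (B i) (Subset.refl _)
      (fun ⟨k, hk, v, ed, hv, hed, hA⟩ => hM.no_short hC k hk v ed hv hed fun i => (hA i).2)⟩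
  exact hM.nz (cls_nz _ s d rfl ⟨hTD, hM.cls.2⟩ hM.cut1)

/-- from the usual definition of tree decompositions -/
theorem HasT.of_tree {ι : Type} [Fintype ι] {T : SimpleGraph ι} {C : ι → Finset V}
    {src dst : E → V} (hT : T.IsTree) (hC : PathCond T C)
    (he : ∀ e, ∃ i, src e ∈ C i ∧ dst e ∈ C i) (hw : ∀ i, Sp src dst (C i)) :
    HasT src dst := by
  classical
  obtain ⟨m, hm⟩ : ∃ m, Fintype.card ι = m + 1 := by
    have := hT.connected.nonempty
    exact ⟨Fintype.card ι - 1, by have := Fintype.card_pos (α := ι); omega⟩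
  obtain ⟨num, par, h1, h2, h3, h4⟩ := numbering m ι T C hT hC hm
  have hsurj : ∀ a, a < m + 1 → ∃ i, num i = a := by
    intro a ha
    have hb : Function.Bijective (fun i => (⟨num i, h2 i⟩ : Fin (m + 1))) := by
      rw [Fintype.bijective_iff_injective_and_card]
      refine ⟨fun i j hij => h1 (by simpa using hij), by rw [hm, Fintype.card_fin]⟩
    obtain ⟨i, hi⟩ := hb.2 ⟨a, ha⟩
    exact ⟨i, by simpa using congrArg Fin.val hi⟩
  have := hT.connected.nonempty
  have hinv : ∀ i, Function.invFun num (num i) = i := Function.leftInverse_invFun h1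
  refine ⟨m + 1, par, fun a => C (Function.invFun num a), h3, ?_, ?_, fun a _ => hw _⟩
  · intro e
    obtain ⟨i, hi1, hi2⟩ := he e
    refine ⟨num i, h2 i, ?_⟩
    change src e ∈ C (Function.invFun num (num i)) ∧ dst e ∈ C (Function.invFun num (num i))
    rw [hinv i]
    exact ⟨hi1, hi2⟩
  · intro a b v hba ha hva hvb
    obtain ⟨i, rfl⟩ := hsurj a ha
    obtain ⟨j, rfl⟩ := hsurj b (by omega)
    change v ∈ C (Function.invFun num (num i)) at hva
    change v ∈ C (Function.invFun num (num j)) at hvb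
    change v ∈ C (Function.invFun num (par (num i)))
    rw [hinv] at hva hvb
    obtain ⟨k, hk, hk2⟩ := h4 i j v hba hva hvb
    rw [← hk, hinv]
    exact hk2

end Pool.Agent.R129.Four
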