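import Pool.Agent.TH499.TF.Minor

/-!
# Four-flows: counterexamples which are minimal in a class closed under contractions

The proofs of `ConC.grow`, `MCo.con`, `MCo.par`, `MCo.tri` and `MCo.sq` are those of the library
`TH499/TF` (where the class is also closed under deletions).
-/

set_option autoImplicit false
set_option linter.unusedSectionVars false

namespace Pool.Agent.R129.Four

open Finset Pool.Agent.TH499.TF

variable {V E : Type} [Fintype V] [DecidableEq V] [Fintype E] [DecidableEq E]

/-- closed under contractions -/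
def ConC (C : (E → V) → (E → V) → Prop) : Prop :=
  ∀ src dst (u v : V) (e : E), C src dst → u ≠ v → Joins src dst e u v →
    C (phi u v ∘ src) (phi u v ∘ dst)

omit [Fintype V] [Fintype E] in
theorem ConC.grow {C : (E → V) → (E → V) → Prop} (hC : ConC C) {src dst : E → V}
    {W : Finset V} (hW : Grow src dst W) (h : C src dst) :
    ∃ w ∈ W, C (pw W w ∘ src) (pw W w ∘ dst) := by
  induction hW with
  | one v =>
    refine ⟨v, mem_singleton_self v, ?_⟩
    have : (pw {v} v : V → V) = id := by
      funext x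
      unfold pw
      by_cases hx : x = v <;> simp [hx]
    rw [this]; exact h
  | add W v w e hW hv hw he ih =>
    obtain ⟨w0, hw0, h0⟩ := ih
    refine ⟨w0, mem_insert_of_mem hw0, ?_⟩
    have hne : w0 ≠ v := fun h => hv (h ▸ hw0)
    have hj : Joins (pw W w0 ∘ src) (pw W w0 ∘ dst) e w0 v := by
      have a1 : pw W w0 v = v := by unfold pw; rw [if_neg hv]
      have a2 : pw W w0 w = w0 := by unfold pw; rw [if_pos hw]
      rcases he with ⟨h1, h2⟩ | ⟨h1, h2⟩
      · right
        simp only [Function.comp, h1, h2, a1, a2, and_self]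
      · left
        simp only [Function.comp, h1, h2, a1, a2, and_self]
    have h1 := hC _ _ w0 v e h0 hne hj
    have h2 : (pw (insert v W) w0 : V → V) = phi w0 v ∘ pw W w0 := by
      funext x
      unfold pw phi
      simp only [Function.comp, mem_insert]
      by_cases hx : x = v
      · subst hx; simp [hv]
      · by_cases hx2 : x ∈ W
        · simp [hx2]
        · simp [hx, hx2]
    rw [h2]
    exact h1

/-- a minimal counterexample -/
structure MCo (C : (E → V) → (E → V) → Prop) (src dst : E → V) : Prop where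
  nz : ¬ NZ src dst
  cut1 : ∀ Y, (dlt src dst Y).card ≠ 1
  cls : C src dst
  min : ∀ src' dst', nl src' dst' < nl src dst → C src' dst' →
    (∀ Y, (dlt src' dst' Y).card ≠ 1) → NZ src' dst'

variable {C : (E → V) → (E → V) → Prop} {src dst : E → V}

/-- a flow of a contraction -/
theorem MCo.con (hC : ConC C) (h : MCo C src dst) {W : Finset V} (hW : Grow src dst W)
    {e : E} (he : src e ≠ dst e) (h1 : src e ∈ W) (h2 : dst e ∈ W) :
    ∃ f : E → K, (∀ e, f e ≠ 0) ∧ ∀ x, x ∉ W → dv src dst f x = 0 := by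
  obtain ⟨w, hw, hc⟩ := hC.grow hW h.cls
  obtain ⟨f, hf, hd⟩ := h.min _ _ (by
    unfold nl
    apply card_lt_card
    rw [ssubset_iff_of_subset]
    · refine ⟨e, by simpa using he, ?_⟩
      simp only [mem_filter, mem_univ, true_and, not_not, Function.comp]
      unfold pw
      rw [if_pos h1, if_pos h2]
    · intro d hd
      simp only [mem_filter, mem_univ, true_and, Function.comp] at hd ⊢
      intro h; exact hd (by rw [h])) hc (fun Y => by
    rw [dlt_comp]; exact h.cut1 _)
  refine ⟨f, hf, fun x hx => ?_⟩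
  have h3 := hd x
  rw [dv_comp] at h3
  have h4 : univ.filter (fun y => pw W w y = x) = {x} := by
    ext y
    simp only [mem_filter, mem_univ, true_and, mem_singleton]
    unfold pw
    constructor
    · intro h5
      by_cases hy : y ∈ W
      · rw [if_pos hy] at h5; exact absurd (h5 ▸ hw) hx
      · rw [if_neg hy] at h5; exact h5
    · rintro rfl
      rw [if_neg hx]
  rw [h4, sum_singleton] at h3
  exact h3

/-- no cut with two edges -/
theorem MCo.cut2 (hC : ConC C) (h : MCo C src dst) (Y : Finset V) :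
    (dlt src dst Y).card ≠ 2 := by
  intro hY
  obtain ⟨e1, e2, hne, hY2⟩ := card_eq_two.mp hY
  have he2 : e2 ∈ dlt src dst Y := by rw [hY2]; simp
  have hl : src e2 ≠ dst e2 := by
    intro h; rw [mem_dlt] at he2; apply he2; rw [h]
  have hG : Grow src dst {src e2, dst e2} :=
    Grow.add {dst e2} (src e2) (dst e2) e2 (Grow.one _) (by simpa using hl) (by simp)
      (Or.inl ⟨rfl, rfl⟩)
  obtain ⟨f, hf, hd⟩ := h.con hC hG hl (by simp) (by simp)
  have hsum := sum_dv_univ src dst f
  rw [← sum_subset (subset_univ ({src e2, dst e2} : Finset V)) (fun x _ hx => hd x hx),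
    sum_pair hl] at hsum
  set s := dv src dst f (src e2) with hs
  have hs2 : dv src dst f (dst e2) = s := (K_eq_of_add hsum).symm
  set g : E → K := fun e => f e + (if e = e2 then s else 0) with hg
  have hdg : ∀ x, dv src dst g x = 0 := by
    intro x
    rw [hg, dv_add]
    have h1 : dv src dst (fun e => if e = e2 then s else 0) x = jn (src e2) (dst e2) s x := by
      unfold dv
      rw [sum_eq_single e2]
      · simp
      · intro b _ hb; simp [hb, jn_zero]
      · simp
    rw [h1]
    unfold jn
    by_cases hx1 : src e2 = x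
    · have hx2 : dst e2 ≠ x := fun h => hl (hx1.trans h.symm)
      rw [if_pos hx1, if_neg hx2, ← hx1, ← hs, add_zero, K_add_self]
    · by_cases hx2 : dst e2 = x
      · rw [if_neg hx1, if_pos hx2, ← hx2, hs2, zero_add, K_add_self]
      · rw [if_neg hx1, if_neg hx2, hd x (by
          simp only [mem_insert, mem_singleton, not_or]
          exact ⟨fun h => hx1 h.symm, fun h => hx2 h.symm⟩)]
        simp
  apply h.nz
  refine ⟨g, fun e => ?_, hdg⟩
  by_cases he : e = e2
  · have h1 := sum_dv src dst g Y
    rw [sum_eq_zero fun x _ => hdg x, hY2, sum_pair hne] at h1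
    rw [he, ← K_eq_of_add h1.symm, hg]
    simp only [if_neg hne, add_zero]
    exact hf e1
  · rw [hg]; simp only [if_neg he, add_zero]; exact hf e

theorem MCo.par (hC : ConC C) (h : MCo C src dst) {e e' : E} {x y : V} (hxy : x ≠ y)
    (h1 : Joins src dst e x y) (h2 : Joins src dst e' x y) : e = e' := by
  by_contra hne
  have hG : Grow src dst {x, y} :=
    Grow.add {y} x y e (Grow.one _) (by simpa using hxy) (by simp) h1
  have hm : src e ∈ ({x, y} : Finset V) ∧ dst e ∈ ({x, y} : Finset V) := by
    rcases h1 with ⟨h3, h4⟩ | ⟨h3, h4⟩ <;> rw [h3, h4] <;> simp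
  obtain ⟨f, hf, hd⟩ := h.con hC hG (h1.ne_loop hxy) hm.1 hm.2
  set ε : Fin 2 → E := ![e, e'] with hεd
  have hε : Function.Injective ε := by
    intro i j hij
    fin_cases i <;> fin_cases j <;> simp_all [eq_comm]
  set l : Fin 2 → V := ![x, y] with hld
  have hl : Function.Injective l := by
    intro i j hij
    fin_cases i <;> fin_cases j <;> simp_all [eq_comm]
  have hj : ∀ k, Joins src dst (ε k) (l ((fun _ => 0) k)) (l ((fun _ => 1) k)) := by
    intro k
    fin_cases k
    · exact h1
    · exact h2
  have hd' : ∀ z, (∀ i, z ≠ l i) → dv src dst f z = 0 := by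
    intro z hz
    apply hd
    have a := hz 0
    have b := hz 1
    simp only [mem_insert, mem_singleton, not_or]
    exact ⟨a, b⟩
  have hsum := sum_outd (fun _ => 0) (fun _ => 1) hl hε hj hd'
  rw [Fin.sum_univ_two] at hsum
  obtain ⟨a, b, ha, hb, hab⟩ := solve2 (outd src dst ε f (l 0))
  apply h.nz
  refine gl (fun _ => 0) (fun _ => 1) hl hε hj (fun e _ => hf e) hd' (t := ![a, b]) ?_ ?_
  · intro k; fin_cases k
    · exact ha
    · exact hb
  · intro i
    fin_cases i
    · change outd src dst ε f (l 0) = _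
      rw [← hab]
      simp [dv, jn]
    · change outd src dst ε f (l 1) = _
      rw [← K_eq_of_add hsum, ← hab]
      simp [dv, jn]

theorem MCo.tri (hC : ConC C) (h : MCo C src dst) {e1 e2 e3 : E} {x y z : V} (hxy : x ≠ y)
    (hyz : y ≠ z) (hzx : z ≠ x) (h1 : Joins src dst e1 x y) (h2 : Joins src dst e2 y z)
    (h3 : Joins src dst e3 z x) : False := by
  have hG : Grow src dst {x, y, z} :=
    Grow.add {y, z} x y e1 (Grow.add {z} y z e2 (Grow.one _) (by simpa using hyz) (by simp) h2)
      (by simpa using ⟨hxy, hzx.symm⟩) (by simp) h1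
  have hm : src e1 ∈ ({x, y, z} : Finset V) ∧ dst e1 ∈ ({x, y, z} : Finset V) := by
    rcases h1 with ⟨h3, h4⟩ | ⟨h3, h4⟩ <;> rw [h3, h4] <;> simp
  obtain ⟨f, hf, hd⟩ := h.con hC hG (h1.ne_loop hxy) hm.1 hm.2
  have n12 : e1 ≠ e2 := by
    rintro rfl
    rcases h1.ends h2 with ⟨a, b⟩ | ⟨a, b⟩
    · exact hxy a
    · exact hzx a.symm
  have n13 : e1 ≠ e3 := by
    rintro rfl
    rcases h1.ends h3 with ⟨a, b⟩ | ⟨a, b⟩
    · exact hzx a.symm
    · exact hyz b
  have n23 : e2 ≠ e3 := by
    rintro rfl
    rcases h2.ends h3 with ⟨a, b⟩ | ⟨a, b⟩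
    · exact hyz a
    · exact hxy a.symm
  set ε : Fin 3 → E := ![e1, e2, e3] with hεd
  have hε : Function.Injective ε := by
    intro i j hij
    fin_cases i <;> fin_cases j <;> simp_all [eq_comm]
  set l : Fin 3 → V := ![x, y, z] with hld
  have hl : Function.Injective l := by
    intro i j hij
    fin_cases i <;> fin_cases j <;> simp_all [eq_comm]
  have hj : ∀ k, Joins src dst (ε k) (l ((![0, 1, 2] : Fin 3 → Fin 3) k))
      (l ((![1, 2, 0] : Fin 3 → Fin 3) k)) := by
    intro k
    fin_cases k
    · exact h1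
    · exact h2
    · exact h3
  have hd' : ∀ z, (∀ i, z ≠ l i) → dv src dst f z = 0 := by
    intro z hz
    apply hd
    simp only [mem_insert, mem_singleton, not_or]
    exact ⟨hz 0, hz 1, hz 2⟩
  have hsum := sum_outd _ _ hl hε hj hd'
  rw [Fin.sum_univ_three] at hsum
  obtain ⟨a, b, c, ha, hb, hc, q1, q2, q3⟩ := solve3 _ _ _ hsum
  apply h.nz
  refine gl _ _ hl hε hj (fun e _ => hf e) hd' (t := ![a, b, c]) ?_ ?_
  · intro k; fin_cases k
    · exact ha
    · exact hb
    · exact hc
  · intro i
    fin_cases i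
    · change outd src dst ε f (l 0) = _
      rw [← q1]
      simp [dv, jn, Fin.sum_univ_three]
    · change outd src dst ε f (l 1) = _
      rw [← q2]
      simp [dv, jn, Fin.sum_univ_three]
    · change outd src dst ε f (l 2) = _
      rw [← q3]
      simp [dv, jn, Fin.sum_univ_three]

theorem MCo.sq (hC : ConC C) (h : MCo C src dst) {e1 e2 e3 e4 : E} {u1 u2 u3 u4 : V}
    (n12 : u1 ≠ u2) (n23 : u2 ≠ u3) (n34 : u3 ≠ u4) (n41 : u4 ≠ u1) (n13 : u1 ≠ u3)
    (n24 : u2 ≠ u4) (h1 : Joins src dst e1 u1 u2) (h2 : Joins src dst e2 u2 u3)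
    (h3 : Joins src dst e3 u3 u4) (h4 : Joins src dst e4 u4 u1) : False := by
  have hG : Grow src dst {u1, u2, u3, u4} :=
    Grow.add {u2, u3, u4} u1 u2 e1 (Grow.add {u3, u4} u2 u3 e2
      (Grow.add {u4} u3 u4 e3 (Grow.one _) (by simpa using n34) (by simp) h3)
      (by simpa using ⟨n23, n24⟩) (by simp) h2)
      (by simpa using ⟨n12, n13, n41.symm⟩) (by simp) h1
  have hm : src e1 ∈ ({u1, u2, u3, u4} : Finset V) ∧ dst e1 ∈ ({u1, u2, u3, u4} : Finset V) := by
    rcases h1 with ⟨h3, h4⟩ | ⟨h3, h4⟩ <;> rw [h3, h4] <;> simp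
  obtain ⟨f, hf, hd⟩ := h.con hC hG (h1.ne_loop n12) hm.1 hm.2
  have m12 : e1 ≠ e2 := by
    rintro rfl
    rcases h1.ends h2 with ⟨a, b⟩ | ⟨a, b⟩
    · exact n12 a
    · exact n13 a
  have m13 : e1 ≠ e3 := by
    rintro rfl
    rcases h1.ends h3 with ⟨a, b⟩ | ⟨a, b⟩
    · exact n13 a
    · exact n23 b
  have m14 : e1 ≠ e4 := by
    rintro rfl
    rcases h1.ends h4 with ⟨a, b⟩ | ⟨a, b⟩
    · exact n41 a.symm
    · exact n24 b
  have m23 : e2 ≠ e3 := by
    rintro rfl
    rcases h2.ends h3 with ⟨a, b⟩ | ⟨a, b⟩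
    · exact n23 a
    · exact n24 a
  have m24 : e2 ≠ e4 := by
    rintro rfl
    rcases h2.ends h4 with ⟨a, b⟩ | ⟨a, b⟩
    · exact n24 a
    · exact n12 a.symm
  have m34 : e3 ≠ e4 := by
    rintro rfl
    rcases h3.ends h4 with ⟨a, b⟩ | ⟨a, b⟩
    · exact n34 a
    · exact n13 a.symm
  set ε : Fin 4 → E := ![e1, e2, e3, e4] with hεd
  have hε : Function.Injective ε := by
    intro i j hij
    fin_cases i <;> fin_cases j <;> simp_all [eq_comm]
  set l : Fin 4 → V := ![u1, u2, u3, u4] with hld
  have hl : Function.Injective l := by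
    intro i j hij
    fin_cases i <;> fin_cases j <;> simp_all [eq_comm]
  have hj : ∀ k, Joins src dst (ε k) (l ((![0, 1, 2, 3] : Fin 4 → Fin 4) k))
      (l ((![1, 2, 3, 0] : Fin 4 → Fin 4) k)) := by
    intro k
    fin_cases k
    · exact h1
    · exact h2
    · exact h3
    · exact h4
  have hd' : ∀ g : E → K, (∀ x, x ∉ ({u1, u2, u3, u4} : Finset V) → dv src dst g x = 0) →
      ∀ z, (∀ i, z ≠ l i) → dv src dst g z = 0 := by
    intro g hg z hz
    apply hg
    simp only [mem_insert, mem_singleton, not_or]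
    exact ⟨hz 0, hz 1, hz 2, hz 3⟩
  -- solvable demands
  have key : ∀ g : E → K, (∀ e, g e ≠ 0) →
      (∀ x, x ∉ ({u1, u2, u3, u4} : Finset V) → dv src dst g x = 0) →
      outd src dst ε g u1 = outd src dst ε g u3 ∧ outd src dst ε g u2 = outd src dst ε g u4 ∧
      outd src dst ε g u1 ≠ 0 ∧ outd src dst ε g u2 ≠ 0 ∧
      outd src dst ε g u1 ≠ outd src dst ε g u2 := by
    intro g hg hgd
    have hsum := sum_outd _ _ hl hε hj (hd' g hgd)
    rw [Fin.sum_univ_four] at hsum
    rcases solve4 _ _ _ _ hsum with ⟨a, b, c, d, ha, hb, hc, hdd, q1, q2, q3, q4⟩ | hbad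
    · exfalso
      apply h.nz
      refine gl _ _ hl hε hj (fun e _ => hg e) (hd' g hgd) (t := ![a, b, c, d]) ?_ ?_
      · intro k; fin_cases k
        · exact ha
        · exact hb
        · exact hc
        · exact hdd
      · intro i
        fin_cases i
        · change outd src dst ε g (l 0) = _
          rw [← q1]
          simp [dv, jn, Fin.sum_univ_four]
        · change outd src dst ε g (l 1) = _
          rw [← q2]
          simp [dv, jn, Fin.sum_univ_four]
        · change outd src dst ε g (l 2) = _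
          rw [← q3]
          simp [dv, jn, Fin.sum_univ_four]
        · change outd src dst ε g (l 3) = _
          rw [← q4]
          simp [dv, jn, Fin.sum_univ_four]
    · exact hbad
  obtain ⟨k1, k2, k3, k4, k5⟩ := key f hf hd
  set p := outd src dst ε f u1 with hp
  set q := outd src dst ε f u2 with hq
  have hr : p + q ≠ 0 := fun h0 => k5 (K_eq_of_add h0)
  obtain ⟨c, d, hcd⟩ := lf_exists _ hr
  set A : Finset E := univ.filter (fun e => (∀ k, e ≠ ε k) ∧ lf c d (f e) ≠ 0) with hA
  have hlin : ∀ x, pd src dst A x = lf c d (outd src dst ε f x) := by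
    intro x
    unfold pd outd
    have hmap : ∀ s : Finset E, lf c d (∑ e ∈ s, jn (src e) (dst e) (f e) x)
        = ∑ e ∈ s, lf c d (jn (src e) (dst e) (f e) x) := by
      intro s
      induction s using Finset.induction_on with
      | empty => simp [lf_zero]
      | insert a s ha ih => rw [sum_insert ha, sum_insert ha, lf_add, ih]
    rw [hmap]
    have hA2 : A = (univ.filter (fun e => ∀ k, e ≠ ε k)).filter (fun e => lf c d (f e) ≠ 0) := by
      rw [hA, filter_filter]
    rw [hA2, sum_filter]
    refine sum_congr rfl fun e _ => ?_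
    unfold jn
    rw [lf_add]
    have h2 : ∀ a : ZMod 2, a ≠ 0 → a = 1 := by decide
    by_cases h1 : lf c d (f e) = 0
    · rw [if_neg (not_not.mpr h1)]
      split_ifs <;> simp [h1, lf_zero]
    · rw [if_pos h1]
      have h3 := h2 _ h1
      split_ifs <;> simp [h3, lf_zero]
  have hpo : lf c d p = 1 := by
    have h2 : ∀ a : ZMod 2, a ≠ 0 → a = 1 := by decide
    apply h2
    intro h5
    rcases (hcd p).mp h5 with h6 | h6
    · exact k3 h6
    · have : ∀ a b : K, a = a + b → b = 0 := by decide
      exact k4 (this _ _ h6)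
  have hqo : lf c d q = 1 := by
    have h2 : ∀ a : ZMod 2, a ≠ 0 → a = 1 := by decide
    apply h2
    intro h5
    rcases (hcd q).mp h5 with h6 | h6
    · exact k4 h6
    · have : ∀ a b : K, b = a + b → a = 0 := by decide
      exact k3 (this _ _ h6)
  have hcirc : ∀ x, x ∉ ({u1, u2, u3, u4} : Finset V) → ∀ g : E → K,
      dv src dst g x = 0 → outd src dst ε g x = 0 := by
    intro x hx g hg
    rw [dv_split src dst hε] at hg
    simp only [mem_insert, mem_singleton, not_or] at hx
    obtain ⟨x1, x2, x3, x4⟩ := hx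
    have h0 : ∑ k, jn (src (ε k)) (dst (ε k)) (g (ε k)) x = 0 := by
      rw [Fin.sum_univ_four]
      have z1 : ∀ (e : E) (a b : V) (t : K), Joins src dst e a b → x ≠ a → x ≠ b →
          jn (src e) (dst e) t x = 0 := by
        intro e a b t hj ha hb
        rw [hj.jn]
        unfold jn
        rw [if_neg (Ne.symm ha), if_neg (Ne.symm hb), add_zero]
      have y1 : jn (src (ε 0)) (dst (ε 0)) (g (ε 0)) x = 0 := z1 e1 _ _ _ h1 x1 x2
      have y2 : jn (src (ε 1)) (dst (ε 1)) (g (ε 1)) x = 0 := z1 e2 _ _ _ h2 x2 x3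
      have y3 : jn (src (ε 2)) (dst (ε 2)) (g (ε 2)) x = 0 := z1 e3 _ _ _ h3 x3 x4
      have y4 : jn (src (ε 3)) (dst (ε 3)) (g (ε 3)) x = 0 := z1 e4 _ _ _ h4 x4 x1
      rw [y1, y2, y3, y4]; simp
    rw [h0, add_zero] at hg
    exact hg
  have hT : ∀ x, pd src dst A x = if x ∈ ({u1, u2, u3, u4} : Finset V) then 1 else 0 := by
    intro x
    rw [hlin x]
    by_cases hx : x ∈ ({u1, u2, u3, u4} : Finset V)
    · rw [if_pos hx]
      simp only [mem_insert, mem_singleton] at hx
      rcases hx with rfl | rfl | rfl | rfl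
      · exact hpo
      · exact hqo
      · rw [← k1]; exact hpo
      · rw [← k2]; exact hqo
    · rw [if_neg hx, hcirc x hx f (hd x hx), lf_zero]
  obtain ⟨v, hv, hvu, D, hDA, hDp⟩ := switch src dst A {u1, u2, u3, u4} (u := u1) (by simp) hT
  -- the switched values
  set f' : E → K := fun e => f e + (if e ∈ D then p + q else 0) with hf'
  have hDf : ∀ e ∈ D, f e + (p + q) ≠ 0 := by
    intro e he h0
    have h5 := (mem_filter.mp (hDA he)).2.2
    apply h5
    rw [hcd]
    right
    exact K_eq_of_add h0
  have hf0 : ∀ e, f' e ≠ 0 := by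
    intro e
    rw [hf']
    by_cases he : e ∈ D
    · simp only [if_pos he]; exact hDf e he
    · simp only [if_neg he, add_zero]; exact hf e
  have hsw : ∀ x (s : Finset E), ∑ e ∈ s, jn (src e) (dst e) (if e ∈ D then p + q else 0) x
      = if pd src dst (s ∩ D) x = 0 then 0 else p + q := by
    intro x s
    have h2 : ∀ a : ZMod 2, a ≠ 0 → a = 1 := by decide
    have h3 : ∀ s : Finset E, s ⊆ D → ∑ e ∈ s, jn (src e) (dst e) (p + q) x
        = if pd src dst s x = 0 then 0 else p + q := by
      intro s
      induction s using Finset.induction_on with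
      | empty => intro _; simp [pd]
      | insert a s ha ih =>
        intro hs
        have ih' := ih ((subset_insert _ _).trans hs)
        rw [sum_insert ha, ih']
        have h4 : pd src dst (insert a s) x
            = ((if src a = x then 1 else 0) + (if dst a = x then 1 else 0)) + pd src dst s x := by
          unfold pd; rw [sum_insert ha]
        rw [h4]
        unfold jn
        by_cases z : pd src dst s x = 0
        · rw [z]
          by_cases b1 : src a = x <;> by_cases b2 : dst a = x <;>
            simp [b1, b2, K_add_self, z2_add_self]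
        · rw [h2 _ z]
          by_cases b1 : src a = x <;> by_cases b2 : dst a = x <;>
            simp [b1, b2, K_add_self, z2_add_self]
    have h5 : ∑ e ∈ s, jn (src e) (dst e) (if e ∈ D then p + q else 0) x
        = ∑ e ∈ s ∩ D, jn (src e) (dst e) (p + q) x := by
      rw [← filter_mem_eq_inter, sum_filter]
      refine sum_congr rfl fun e _ => ?_
      split_ifs
      · rfl
      · exact jn_zero _ _ _
    rw [h5, h3 _ inter_subset_right]
  have hout : ∀ x, outd src dst ε f' x = outd src dst ε f x
      + (if (if x = u1 then (1 : ZMod 2) else 0) + (if x = v then 1 else 0) = 0 then 0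
        else p + q) := by
    intro x
    unfold outd
    rw [hf']
    simp only [jn_add]
    rw [sum_add_distrib, hsw, ← hDp x]
    congr 3
    have : (univ.filter (fun e => ∀ k, e ≠ ε k)) ∩ D = D := by
      apply inter_eq_right.mpr
      intro e he
      rw [mem_filter]
      exact ⟨mem_univ _, (mem_filter.mp (hDA he)).2.1⟩
    rw [this]
  have hdv : ∀ x, x ∉ ({u1, u2, u3, u4} : Finset V) → dv src dst f' x = 0 := by
    intro x hx
    have hx' := hx
    rw [dv_add, hd x hx, zero_add]
    unfold dv
    rw [hsw, univ_inter, hDp x]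
    simp only [mem_insert, mem_singleton, not_or] at hx
    have hxv : x ≠ v := fun h5 => hx' (h5 ▸ hv)
    rw [if_neg hx.1, if_neg hxv, add_zero, if_pos rfl]
  obtain ⟨j1, j2, j3, j4, j5⟩ := key f' hf0 hdv
  rw [hout, hout] at j1 j2 j5
  rw [← hp, ← hq] at *
  rw [← k1, ← k2] at *
  have c1 : ∀ a b : K, a + (a + b) = b := by decide
  simp only [mem_insert, mem_singleton] at hv
  rcases hv with rfl | rfl | rfl | rfl
  · exact hvu rfl
  · simp [n12, n23.symm, n13.symm] at j1
    exact hr j1
  · apply j5
    simp [n12.symm, n13, n23, c1]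
  · simp [n34, n41.symm, n13.symm] at j1
    exact hr j1


/-- a minimal counterexample exists -/
theorem exists_MCo {C : (E → V) → (E → V) → Prop} : ∀ (n : ℕ) (src dst : E → V),
    nl src dst = n → C src dst → (∀ Y, (dlt src dst Y).card ≠ 1) → ¬ NZ src dst →
    ∃ s d, MCo C s d := by
  intro n
  induction n using Nat.strong_induction_on with
  | _ n ih =>
    intro src dst hn hc hb hnz
    by_cases h : ∀ s d, nl s d < nl src dst → C s d → (∀ Y, (dlt s d Y).card ≠ 1) → NZ s d
    · exact ⟨src, dst, hnz, hb, hc, h⟩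
    · push Not at h
      obtain ⟨s, d, h1, h2, h3, h4⟩ := h
      exact ih _ (by rw [← hn]; exact h1) s d rfl h2 h3 h4

end Pool.Agent.R129.Four
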